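import Pool.Agent.W208.TL.Stm

/-! TL-KAT: the criterion of Katai with large primes, uniformly over `KF`. -/

set_option autoImplicit false

namespace Pool.Agent.W699.TLKat

open Finset Filter
open Pool.Agent.W208.TL

/-- the number of primes of `P` dividing `n` -/
noncomputable def om (P : Finset ℕ) (n : ℕ) : ℝ := ∑ p ∈ P, if p ∣ n then (1 : ℝ) else 0

noncomputable def SS (P : Finset ℕ) : ℝ := ∑ p ∈ P, 1 / (p : ℝ)

theorem card_dvd (N p : ℕ) : (∑ n ∈ Ioc 0 N, if p ∣ n then (1 : ℝ) else 0) = ((N / p : ℕ) : ℝ) := by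
  rw [← Finset.sum_filter, Finset.sum_const, Nat.Ioc_filter_dvd_card_eq_div, nsmul_eq_mul, mul_one]

theorem sum_om (P : Finset ℕ) (hP : ∀ p ∈ P, p.Prime) (N : ℕ) :
    N * SS P - P.card ≤ ∑ n ∈ Ioc 0 N, om P n := by
  unfold om SS
  rw [Finset.sum_comm]
  simp_rw [card_dvd]
  rw [Finset.mul_sum, Finset.card_eq_sum_ones, Nat.cast_sum, ← Finset.sum_sub_distrib]
  refine Finset.sum_le_sum fun p hp => ?_
  have hp0 : (0 : ℝ) < p := by exact_mod_cast (hP p hp).pos
  have h1 : (N : ℝ) / p < ((N / p : ℕ) : ℝ) + 1 := by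
    rw [div_lt_iff₀ hp0]
    have := Nat.lt_mul_div_succ N (hP p hp).pos
    have h2 : (N : ℝ) < p * ((N / p : ℕ) + 1 : ℕ) := by exact_mod_cast this
    push_cast at h2
    linarith
  push_cast
  rw [mul_one_div]
  linarith

theorem sum_om_sq (P : Finset ℕ) (hP : ∀ p ∈ P, p.Prime) (N : ℕ) :
    ∑ n ∈ Ioc 0 N, om P n ^ 2 ≤ N * SS P ^ 2 + N * SS P := by
  have h1 : ∑ n ∈ Ioc 0 N, om P n ^ 2
      = ∑ p ∈ P, ∑ q ∈ P, ∑ n ∈ Ioc 0 N, (if p ∣ n ∧ q ∣ n then (1 : ℝ) else 0) := by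
    unfold om
    simp_rw [sq, Finset.sum_mul_sum]
    rw [Finset.sum_comm]
    refine Finset.sum_congr rfl fun p _ => ?_
    rw [Finset.sum_comm]
    refine Finset.sum_congr rfl fun q _ => Finset.sum_congr rfl fun n _ => ?_
    by_cases h : p ∣ n <;> by_cases h' : q ∣ n <;> simp [h, h']
  rw [h1]
  have h2 : ∀ p ∈ P, ∀ q ∈ P, ∑ n ∈ Ioc 0 N, (if p ∣ n ∧ q ∣ n then (1 : ℝ) else 0)
      ≤ N * (1 / (p : ℝ) * (1 / q)) + if p = q then N * (1 / (p : ℝ)) else 0 := by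
    intro p hp q hq
    have hp0 : (0 : ℝ) < p := by exact_mod_cast (hP p hp).pos
    have hq0 : (0 : ℝ) < q := by exact_mod_cast (hP q hq).pos
    by_cases h : p = q
    · subst h
      simp only [and_self, if_true]
      rw [card_dvd]
      have h3 : ((N / p : ℕ) : ℝ) ≤ N / p := Nat.cast_div_le
      have h4 : (0 : ℝ) ≤ N * (1 / (p : ℝ) * (1 / p)) := by positivity
      rw [← mul_one_div] at h3
      linarith
    · have h3 : ∀ n : ℕ, (p ∣ n ∧ q ∣ n) ↔ p * q ∣ n := by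
        intro n
        constructor
        · rintro ⟨h1, h2⟩
          exact Nat.Coprime.mul_dvd_of_dvd_of_dvd ((Nat.coprime_primes (hP p hp) (hP q hq)).2 h)
            h1 h2
        · intro h1
          exact ⟨(Dvd.intro _ rfl).trans h1, (Dvd.intro_left _ rfl).trans h1⟩
      simp_rw [h3]
      rw [card_dvd, if_neg h, add_zero]
      refine Nat.cast_div_le.trans (le_of_eq ?_)
      push_cast
      field_simp
  calc ∑ p ∈ P, ∑ q ∈ P, ∑ n ∈ Ioc 0 N, (if p ∣ n ∧ q ∣ n then (1 : ℝ) else 0)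
      ≤ ∑ p ∈ P, ∑ q ∈ P, (N * (1 / (p : ℝ) * (1 / q)) + if p = q then N * (1 / (p : ℝ)) else 0) :=
        Finset.sum_le_sum fun p hp => Finset.sum_le_sum fun q hq => h2 p hp q hq
    _ = N * SS P ^ 2 + N * SS P := by
        simp_rw [Finset.sum_add_distrib]
        congr 1
        · unfold SS
          rw [sq, Finset.sum_mul_sum, Finset.mul_sum]
          refine Finset.sum_congr rfl fun p _ => ?_
          rw [Finset.mul_sum]
        · unfold SS
          rw [Finset.mul_sum]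
          refine Finset.sum_congr rfl fun p hp => ?_
          rw [Finset.sum_ite_eq P p]
          simp [hp]

theorem var (P : Finset ℕ) (hP : ∀ p ∈ P, p.Prime) (N : ℕ) (hS : 0 ≤ SS P) :
    ∑ n ∈ Ioc 0 N, (om P n - SS P) ^ 2 ≤ N * SS P + 2 * SS P * P.card := by
  have h1 : ∑ n ∈ Ioc 0 N, (om P n - SS P) ^ 2 = (∑ n ∈ Ioc 0 N, om P n ^ 2)
      - 2 * SS P * (∑ n ∈ Ioc 0 N, om P n) + N * SS P ^ 2 := by
    have : ∀ n, (om P n - SS P) ^ 2 = om P n ^ 2 - 2 * SS P * om P n + SS P ^ 2 := by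
      intro n; ring
    simp_rw [this]
    rw [Finset.sum_add_distrib, Finset.sum_sub_distrib, ← Finset.mul_sum]
    simp
  have h2 := sum_om P hP N
  have h3 := sum_om_sq P hP N
  have h4 := mul_le_mul_of_nonneg_left h2 hS
  rw [h1]
  nlinarith

theorem var1 (P : Finset ℕ) (hP : ∀ p ∈ P, p.Prime) (N : ℕ) (hN : P.card ≤ N)
    (hS : 0 < SS P) :
    ∑ n ∈ Ioc 0 N, |om P n - SS P| ≤ 2 * Real.sqrt (SS P) * N := by
  set L := Real.sqrt (SS P) with hL
  have hL0 : 0 < L := Real.sqrt_pos.2 hS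
  have hL2 : L ^ 2 = SS P := Real.sq_sqrt hS.le
  have h1 : ∀ n, |om P n - SS P| ≤ (L + (om P n - SS P) ^ 2 / L) / 2 := by
    intro n
    rw [← sq_abs]
    set a := |om P n - SS P|
    have : 0 ≤ (a - L) ^ 2 / L := by positivity
    have h3 : (a - L) ^ 2 / L = a ^ 2 / L - 2 * a + L := by
      field_simp
      ring
    linarith
  calc ∑ n ∈ Ioc 0 N, |om P n - SS P|
      ≤ ∑ n ∈ Ioc 0 N, (L + (om P n - SS P) ^ 2 / L) / 2 := Finset.sum_le_sum fun n _ => h1 n
    _ = (L * N + (∑ n ∈ Ioc 0 N, (om P n - SS P) ^ 2) / L) / 2 := by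
        rw [← Finset.sum_div, Finset.sum_add_distrib, ← Finset.sum_div]
        simp [mul_comm]
    _ ≤ (L * N + (N * SS P + 2 * SS P * P.card) / L) / 2 := by
        have := var P hP N hS.le
        gcongr
    _ = L * (N + P.card) := by
        rw [← hL2]
        field_simp
        ring
    _ ≤ 2 * L * N := by
        have : (P.card : ℝ) ≤ N := by exact_mod_cast hN
        nlinarith

theorem sum_mult (N p : ℕ) (hp : 0 < p) (G : ℕ → ℂ) :
    ∑ n ∈ Ioc 0 N, (if p ∣ n then G n else 0) = ∑ m ∈ Ioc 0 (N / p), G (p * m) := by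
  rw [← Finset.sum_filter]
  symm
  refine Finset.sum_bij (fun m _ => p * m) ?_ ?_ ?_ ?_
  · intro m hm
    rw [mem_Ioc] at hm
    rw [mem_filter, mem_Ioc]
    refine ⟨⟨Nat.mul_pos hp hm.1, ?_⟩, Dvd.intro _ rfl⟩
    calc p * m ≤ p * (N / p) := Nat.mul_le_mul_left _ hm.2
      _ ≤ N := Nat.mul_div_le N p
  · intro m _ m' _ h
    exact Nat.eq_of_mul_eq_mul_left hp h
  · intro n hn
    rw [mem_filter, mem_Ioc] at hn
    obtain ⟨⟨h1, h2⟩, m, rfl⟩ := hn
    refine ⟨m, ?_, rfl⟩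
    rw [mem_Ioc]
    exact ⟨Nat.pos_of_mul_pos_left h1, (Nat.le_div_iff_mul_le hp).2 (by rwa [mul_comm])⟩
  · intro m _
    rfl

theorem swap (P : Finset ℕ) (hP : ∀ p ∈ P, p.Prime) (N : ℕ) (c f' F : ℕ → ℂ) :
    ∑ p ∈ P, ∑ m ∈ Ioc 0 (N / p), c p * f' m * F (p * m)
      = ∑ m ∈ Ioc 0 N, f' m * ∑ p ∈ P, (if p * m ≤ N then c p * F (p * m) else 0) := by
  have h1 : ∀ p ∈ P, ∑ m ∈ Ioc 0 (N / p), c p * f' m * F (p * m)
      = ∑ m ∈ Ioc 0 N, if p * m ≤ N then c p * f' m * F (p * m) else 0 := by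
    intro p hp
    rw [← Finset.sum_filter]
    refine Finset.sum_congr ?_ fun _ _ => rfl
    ext m
    rw [mem_Ioc, mem_filter, mem_Ioc]
    have hp0 := (hP p hp).pos
    rw [Nat.le_div_iff_mul_le hp0, mul_comm m p]
    constructor
    · rintro ⟨h1, h2⟩
      exact ⟨⟨h1, (Nat.le_mul_of_pos_left m hp0).trans h2⟩, h2⟩
    · rintro ⟨⟨h1, _⟩, h2⟩
      exact ⟨h1, h2⟩
  rw [Finset.sum_congr rfl h1, Finset.sum_comm]
  refine Finset.sum_congr rfl fun m _ => ?_
  rw [Finset.mul_sum]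
  refine Finset.sum_congr rfl fun p _ => ?_
  split_ifs <;> ring

theorem gsq (P : Finset ℕ) (hP : ∀ p ∈ P, p.Prime) (N : ℕ) (c F : ℕ → ℂ)
    (hc : ∀ n, ‖c n‖ ≤ 1) (hF : ∀ n, ‖F n‖ ≤ 1) (δ : ℝ) (hδ : 0 ≤ δ)
    (hyp : ∀ p ∈ P, ∀ q ∈ P, p ≠ q → ∀ M : ℕ, δ * N ≤ M → M ≤ N →
      ‖∑ m ∈ Ioc 0 M, F (p * m) * star (F (q * m))‖ ≤ δ * N) :
    ∑ m ∈ Ioc 0 N, ‖∑ p ∈ P, (if p * m ≤ N then c p * F (p * m) else 0)‖ ^ 2
      ≤ N * SS P + P.card ^ 2 * (δ * N) := by
  have e1 : ∀ m : ℕ, ((‖∑ p ∈ P, (if p * m ≤ N then c p * F (p * m) else 0)‖ ^ 2 : ℝ) : ℂ)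
      = ∑ p ∈ P, ∑ q ∈ P, c p * star (c q) *
        (if p * m ≤ N ∧ q * m ≤ N then F (p * m) * star (F (q * m)) else 0) := by
    intro m
    have h1 : ∀ z : ℂ, ((‖z‖ ^ 2 : ℝ) : ℂ) = z * star z := by
      intro z
      rw [Complex.star_def, Complex.mul_conj, Complex.normSq_eq_norm_sq]
    rw [h1, star_sum, Finset.sum_mul_sum]
    refine Finset.sum_congr rfl fun p _ => Finset.sum_congr rfl fun q _ => ?_
    by_cases h : p * m ≤ N <;> by_cases h' : q * m ≤ N <;> simp [h, h']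
    ring
  have e2 : ((∑ m ∈ Ioc 0 N, ‖∑ p ∈ P, (if p * m ≤ N then c p * F (p * m) else 0)‖ ^ 2 : ℝ) : ℂ)
      = ∑ p ∈ P, ∑ q ∈ P, c p * star (c q) * ∑ m ∈ Ioc 0 N,
        (if p * m ≤ N ∧ q * m ≤ N then F (p * m) * star (F (q * m)) else 0) := by
    push_cast
    have : ∀ m ∈ Ioc 0 N, ((‖∑ p ∈ P, (if p * m ≤ N then c p * F (p * m) else 0)‖ : ℝ) : ℂ) ^ 2
      = ∑ p ∈ P, ∑ q ∈ P, c p * star (c q) *
        (if p * m ≤ N ∧ q * m ≤ N then F (p * m) * star (F (q * m)) else 0) := by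
      intro m _
      rw [← e1]
      push_cast
      rfl
    rw [Finset.sum_congr rfl this, Finset.sum_comm]
    refine Finset.sum_congr rfl fun p _ => ?_
    rw [Finset.sum_comm]
    refine Finset.sum_congr rfl fun q _ => ?_
    rw [Finset.mul_sum]
  have e3 : ∀ p ∈ P, ∀ q ∈ P, ∑ m ∈ Ioc 0 N,
        (if p * m ≤ N ∧ q * m ≤ N then F (p * m) * star (F (q * m)) else 0)
      = ∑ m ∈ Ioc 0 (min (N / p) (N / q)), F (p * m) * star (F (q * m)) := by
    intro p hp q hq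
    have hp0 := (hP p hp).pos
    have hq0 := (hP q hq).pos
    rw [← Finset.sum_filter]
    refine Finset.sum_congr ?_ fun _ _ => rfl
    ext m
    rw [mem_Ioc, mem_filter, mem_Ioc, le_min_iff, Nat.le_div_iff_mul_le hp0,
      Nat.le_div_iff_mul_le hq0, mul_comm m p, mul_comm m q]
    constructor
    · rintro ⟨⟨h1, _⟩, h2⟩
      exact ⟨h1, h2⟩
    · rintro ⟨h1, h2⟩
      exact ⟨⟨h1, (Nat.le_mul_of_pos_left m hp0).trans h2.1⟩, h2⟩
  have triv : ∀ p q M : ℕ, ‖∑ m ∈ Ioc 0 M, F (p * m) * star (F (q * m))‖ ≤ M := by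
    intro p q M
    refine (norm_sum_le _ _).trans ?_
    refine (Finset.sum_le_card_nsmul _ _ 1 fun m _ => ?_).trans (by simp)
    rw [norm_mul, norm_star]
    exact mul_le_one₀ (hF _) (norm_nonneg _) (hF _)
  have e4 : ∀ p ∈ P, ∀ q ∈ P, ‖c p * star (c q) * ∑ m ∈ Ioc 0 N,
        (if p * m ≤ N ∧ q * m ≤ N then F (p * m) * star (F (q * m)) else 0)‖
      ≤ δ * N + if p = q then N * (1 / (p : ℝ)) else 0 := by
    intro p hp q hq
    rw [e3 p hp q hq, norm_mul, norm_mul, norm_star]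
    have hcc : ‖c p‖ * ‖c q‖ ≤ 1 := mul_le_one₀ (hc _) (norm_nonneg _) (hc _)
    have hdN : 0 ≤ δ * N := by positivity
    refine (mul_le_of_le_one_left (norm_nonneg _) hcc).trans ?_
    by_cases h : p = q
    · subst h
      rw [min_self, if_pos rfl]
      have h3 : ((N / p : ℕ) : ℝ) ≤ N / p := Nat.cast_div_le
      rw [← mul_one_div] at h3
      have := triv p p (N / p)
      linarith
    · rw [if_neg h, add_zero]
      by_cases hM : δ * N ≤ ((min (N / p) (N / q) : ℕ) : ℝ)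
      · exact hyp p hp q hq h _ hM ((min_le_left _ _).trans (Nat.div_le_self _ _))
      · exact (triv p q _).trans (not_le.1 hM).le
  have e5 : ∑ m ∈ Ioc 0 N, ‖∑ p ∈ P, (if p * m ≤ N then c p * F (p * m) else 0)‖ ^ 2
      = ‖((∑ m ∈ Ioc 0 N, ‖∑ p ∈ P, (if p * m ≤ N then c p * F (p * m) else 0)‖ ^ 2 : ℝ) : ℂ)‖ := by
    rw [Complex.norm_real, Real.norm_of_nonneg]
    positivity
  rw [e5, e2]
  calc _ ≤ ∑ p ∈ P, ∑ q ∈ P, (δ * N + if p = q then N * (1 / (p : ℝ)) else 0) := by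
        refine (norm_sum_le _ _).trans (Finset.sum_le_sum fun p hp => ?_)
        exact (norm_sum_le _ _).trans (Finset.sum_le_sum fun q hq => e4 p hp q hq)
    _ = N * SS P + P.card ^ 2 * (δ * N) := by
        simp_rw [Finset.sum_add_distrib]
        have : ∑ p ∈ P, ∑ q ∈ P, (if p = q then N * (1 / (p : ℝ)) else 0) = N * SS P := by
          unfold SS
          rw [Finset.mul_sum]
          refine Finset.sum_congr rfl fun p hp => ?_
          rw [Finset.sum_ite_eq P p]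
          simp [hp]
        rw [this]
        simp only [Finset.sum_const, nsmul_eq_mul]
        ring

theorem core (P : Finset ℕ) (hP : ∀ p ∈ P, p.Prime) (R : ℕ) (hR : 1 ≤ R)
    (hR2 : ∀ p ∈ P, R ≤ p) (N : ℕ) (hN : P.card ≤ N)
    (hS : 1 ≤ SS P) (δ : ℝ) (hδ : 0 ≤ δ) (hδ1 : (P.card : ℝ) ^ 2 * δ ≤ 1) (f F : ℕ → ℂ)
    (hf : KF f) (hF : ∀ n, ‖F n‖ ≤ 1)
    (hyp : ∀ p ∈ P, ∀ q ∈ P, p ≠ q → ∀ M : ℕ, δ * N ≤ M → M ≤ N →
      ‖∑ m ∈ Ioc 0 M, F (p * m) * star (F (q * m))‖ ≤ δ * N) :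
    ‖∑ n ∈ Ioc 0 N, f n * F n‖ ≤ (4 / Real.sqrt (SS P) + 2 / R) * N := by
  obtain ⟨hf1, c, f', hc, hf', hm⟩ := hf
  have hS0 : 0 < SS P := by linarith
  set L := Real.sqrt (SS P) with hL
  have hL0 : 0 < L := Real.sqrt_pos.2 hS0
  have hL2 : L ^ 2 = SS P := Real.sq_sqrt hS0.le
  have hL1 : 1 ≤ L := by
    rw [hL]; exact Real.one_le_sqrt.2 hS
  -- step 4
  have s4 : ‖∑ p ∈ P, ∑ m ∈ Ioc 0 (N / p), c p * f' m * F (p * m)‖ ≤ 3 / 2 * L * N := by
    rw [swap P hP]
    have h1 : ∀ a : ℝ, a ≤ (L + a ^ 2 / L) / 2 := by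
      intro a
      have : 0 ≤ (a - L) ^ 2 / L := by positivity
      have h3 : (a - L) ^ 2 / L = a ^ 2 / L - 2 * a + L := by
        field_simp
        ring
      linarith
    calc _ ≤ ∑ m ∈ Ioc 0 N, ‖∑ p ∈ P, (if p * m ≤ N then c p * F (p * m) else 0)‖ := by
          refine (norm_sum_le _ _).trans (Finset.sum_le_sum fun m _ => ?_)
          rw [norm_mul]
          exact mul_le_of_le_one_left (norm_nonneg _) (hf' m)
      _ ≤ ∑ m ∈ Ioc 0 N, (L + ‖∑ p ∈ P, (if p * m ≤ N then c p * F (p * m) else 0)‖ ^ 2 / L) / 2 :=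
          Finset.sum_le_sum fun m _ => h1 _
      _ = (L * N + (∑ m ∈ Ioc 0 N,
            ‖∑ p ∈ P, (if p * m ≤ N then c p * F (p * m) else 0)‖ ^ 2) / L) / 2 := by
          rw [← Finset.sum_div, Finset.sum_add_distrib, ← Finset.sum_div]
          simp [mul_comm]
      _ ≤ (L * N + (N * SS P + P.card ^ 2 * (δ * N)) / L) / 2 := by
          have := gsq P hP N c F hc hF δ hδ hyp
          gcongr
      _ ≤ (L * N + (N * SS P + N) / L) / 2 := by
          have : (P.card : ℝ) ^ 2 * (δ * N) ≤ N := by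
            have e : (P.card : ℝ) ^ 2 * (δ * N) = (P.card : ℝ) ^ 2 * δ * N := by ring
            rw [e]
            exact mul_le_of_le_one_left (Nat.cast_nonneg _) hδ1
          gcongr
      _ ≤ 3 / 2 * L * N := by
          have : (N * SS P + N) / L ≤ 2 * L * N := by
            rw [div_le_iff₀ hL0]
            have hN0 : (0 : ℝ) ≤ N := Nat.cast_nonneg _
            nlinarith
          linarith
  -- step 3
  have s3 : ‖∑ n ∈ Ioc 0 N, (om P n : ℂ) * (f n * F n)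
      - ∑ p ∈ P, ∑ m ∈ Ioc 0 (N / p), c p * f' m * F (p * m)‖ ≤ 2 / R * SS P * N := by
    have h1 : ∑ n ∈ Ioc 0 N, (om P n : ℂ) * (f n * F n)
        = ∑ p ∈ P, ∑ m ∈ Ioc 0 (N / p), f (p * m) * F (p * m) := by
      unfold om
      push_cast
      simp_rw [Finset.sum_mul]
      rw [Finset.sum_comm]
      refine Finset.sum_congr rfl fun p hp => ?_
      rw [← sum_mult N p (hP p hp).pos (fun n => f n * F n)]
      refine Finset.sum_congr rfl fun n _ => ?_
      split_ifs <;> simp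
    rw [h1, ← Finset.sum_sub_distrib]
    have h2 : ∀ p ∈ P, ‖∑ m ∈ Ioc 0 (N / p), f (p * m) * F (p * m)
        - ∑ m ∈ Ioc 0 (N / p), c p * f' m * F (p * m)‖ ≤ 2 / R * (1 / (p : ℝ)) * N := by
      intro p hp
      have hp0 : (0 : ℝ) < p := by exact_mod_cast (hP p hp).pos
      have hR0 : (0 : ℝ) < R := by exact_mod_cast hR
      rw [← Finset.sum_sub_distrib]
      calc _ ≤ ∑ m ∈ Ioc 0 (N / p), (if p ∣ m then (2 : ℝ) else 0) := by
            refine (norm_sum_le _ _).trans (Finset.sum_le_sum fun m _ => ?_)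
            by_cases h : p ∣ m
            · rw [if_pos h]
              refine (norm_sub_le _ _).trans ?_
              rw [norm_mul, norm_mul, norm_mul]
              have a1 : ‖f (p * m)‖ * ‖F (p * m)‖ ≤ 1 := mul_le_one₀ (hf1 _) (norm_nonneg _) (hF _)
              have a2 : ‖c p‖ * ‖f' m‖ * ‖F (p * m)‖ ≤ 1 :=
                mul_le_one₀ (mul_le_one₀ (hc _) (norm_nonneg _) (hf' _)) (norm_nonneg _) (hF _)
              linarith
            · rw [if_neg h, hm p m (hP p hp) h, sub_self, norm_zero]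
        _ = 2 * ((N / p / p : ℕ) : ℝ) := by
            rw [← card_dvd, Finset.mul_sum]
            refine Finset.sum_congr rfl fun m _ => ?_
            split_ifs <;> simp
        _ ≤ 2 * (N / p / R) := by
            have h3 : ((N / p / p : ℕ) : ℝ) ≤ ((N / p : ℕ) : ℝ) / p := Nat.cast_div_le
            have h4 : ((N / p : ℕ) : ℝ) ≤ N / p := Nat.cast_div_le
            have h5 : (R : ℝ) ≤ p := by exact_mod_cast hR2 p hp
            have h6 : ((N / p : ℕ) : ℝ) / p ≤ (N / p : ℝ) / R := by gcongr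
            linarith
        _ = 2 / R * (1 / (p : ℝ)) * N := by
            field_simp
    refine (norm_sum_le _ _).trans ((Finset.sum_le_sum h2).trans (le_of_eq ?_))
    unfold SS
    rw [Finset.mul_sum, Finset.sum_mul]
  -- step 2
  have s2 : ‖(SS P : ℂ) * ∑ n ∈ Ioc 0 N, f n * F n
      - ∑ n ∈ Ioc 0 N, (om P n : ℂ) * (f n * F n)‖ ≤ 2 * L * N := by
    refine le_trans ?_ (var1 P hP N hN hS0)
    rw [Finset.mul_sum, ← Finset.sum_sub_distrib]
    refine (norm_sum_le _ _).trans (Finset.sum_le_sum fun n _ => ?_)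
    rw [← sub_mul, norm_mul, norm_mul, ← Complex.ofReal_sub, Complex.norm_real, Real.norm_eq_abs,
      abs_sub_comm]
    have a1 : ‖f n‖ * ‖F n‖ ≤ 1 := mul_le_one₀ (hf1 _) (norm_nonneg _) (hF _)
    exact mul_le_of_le_one_right (abs_nonneg _) a1
  have s1 : SS P * ‖∑ n ∈ Ioc 0 N, f n * F n‖ ≤ (4 * L + 2 / R * SS P) * N := by
    have h1 : SS P * ‖∑ n ∈ Ioc 0 N, f n * F n‖ = ‖(SS P : ℂ) * ∑ n ∈ Ioc 0 N, f n * F n‖ := by
      rw [norm_mul, Complex.norm_real, Real.norm_of_nonneg hS0.le]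
    rw [h1]
    have hN0 : (0 : ℝ) ≤ N := Nat.cast_nonneg _
    calc _ = ‖((SS P : ℂ) * ∑ n ∈ Ioc 0 N, f n * F n
            - ∑ n ∈ Ioc 0 N, (om P n : ℂ) * (f n * F n))
          + (∑ n ∈ Ioc 0 N, (om P n : ℂ) * (f n * F n)
            - ∑ p ∈ P, ∑ m ∈ Ioc 0 (N / p), c p * f' m * F (p * m))
          + ∑ p ∈ P, ∑ m ∈ Ioc 0 (N / p), c p * f' m * F (p * m)‖ := by
            congr 1; ring
      _ ≤ 2 * L * N + 2 / R * SS P * N + 3 / 2 * L * N :=
          norm_add₃_le.trans (by gcongr)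
      _ ≤ _ := by nlinarith
  have : (4 / L + 2 / R) * N = (4 * L + 2 / R * SS P) * N / SS P := by
    rw [← hL2]
    field_simp
  rw [this, le_div_iff₀ hS0, mul_comm]
  exact s1

theorem exP (R : ℕ) (T : ℝ) : ∃ P : Finset ℕ, (∀ p ∈ P, p.Prime ∧ R < p) ∧ T ≤ SS P := by
  have h1 := not_summable_one_div_on_primes
  have h2 : Tendsto (fun n => ∑ i ∈ range n,
      Set.indicator {p : ℕ | p.Prime} (fun n : ℕ => (1 : ℝ) / n) i) atTop atTop := by
    refine (not_summable_iff_tendsto_nat_atTop_of_nonneg fun n => ?_).1 h1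
    exact Set.indicator_nonneg (fun _ _ => by positivity) _
  obtain ⟨n, hn⟩ := (h2.eventually_ge_atTop (T + (R + 1))).exists
  refine ⟨(range n).filter (fun p => p.Prime ∧ R < p), fun p hp => (mem_filter.1 hp).2, ?_⟩
  have h3 : ∑ i ∈ range n, Set.indicator {p : ℕ | p.Prime} (fun n : ℕ => (1 : ℝ) / n) i
      ≤ SS ((range n).filter (fun p => p.Prime ∧ R < p)) + ∑ i ∈ range (R + 1), (1 : ℝ) := by
    unfold SS
    rw [Finset.sum_filter]
    calc _ ≤ ∑ i ∈ range n, ((if i.Prime ∧ R < i then 1 / (i : ℝ) else 0)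
          + if i ∈ range (R + 1) then (1 : ℝ) else 0) := by
          refine Finset.sum_le_sum fun i _ => ?_
          by_cases hi : i.Prime
          · rw [Set.indicator_of_mem (by exact hi)]
            have hi1 : (1 : ℝ) / i ≤ 1 := by
              have : (1 : ℝ) ≤ i := by exact_mod_cast hi.one_lt.le
              rw [div_le_one (by linarith)]
              exact this
            by_cases hR : R < i
            · rw [if_pos ⟨hi, hR⟩]
              have : (0 : ℝ) ≤ if i ∈ range (R + 1) then (1 : ℝ) else 0 := by split_ifs <;> simp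
              linarith
            · rw [if_neg (fun h => hR h.2), if_pos (by rw [mem_range]; omega)]
              linarith
          · rw [Set.indicator_of_notMem (by exact hi), if_neg (fun h => hi h.1)]
            have : (0 : ℝ) ≤ if i ∈ range (R + 1) then (1 : ℝ) else 0 := by split_ifs <;> simp
            linarith
      _ ≤ _ := by
          rw [Finset.sum_add_distrib]
          gcongr
          rw [← Finset.sum_filter]
          refine Finset.sum_le_sum_of_subset_of_nonneg ?_ fun _ _ _ => by norm_num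
          intro i hi
          exact (mem_filter.1 hi).2
  rw [Finset.sum_const, card_range, nsmul_eq_mul, mul_one] at h3
  push_cast at h3
  linarith

theorem kat : KAT := by
  intro ε B hε
  obtain ⟨R, hR⟩ := exists_nat_gt (max (4 / ε) (B + 1 : ℝ))
  have hR1 : (4 : ℝ) / ε < R := lt_of_le_of_lt (le_max_left _ _) hR
  have hR2 : (B : ℝ) + 1 < R := lt_of_le_of_lt (le_max_right _ _) hR
  have hRB : B + 1 < R := by exact_mod_cast hR2
  obtain ⟨P, hP1, hP2⟩ := exP R (max 1 ((8 / ε) ^ 2))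
  refine ⟨P, fun p hp => ⟨(hP1 p hp).1, by have := (hP1 p hp).2; omega⟩,
    1 / (2 * ((P.card : ℝ) ^ 2 + 1)), by positivity, ?_, P.card, ?_⟩
  · rw [div_lt_one (by positivity)]
    nlinarith [sq_nonneg (P.card : ℝ)]
  intro N hN F hF hyp f hf
  have hS1 : 1 ≤ SS P := (le_max_left _ _).trans hP2
  have hS2 : (8 / ε) ^ 2 ≤ SS P := (le_max_right _ _).trans hP2
  have hsq : 8 / ε ≤ Real.sqrt (SS P) := Real.le_sqrt_of_sq_le hS2
  have h8 : 0 < 8 / ε := by positivity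
  have hR0 : (0 : ℝ) < R := lt_trans (by positivity) hR1
  have h := core P (fun p hp => (hP1 p hp).1) R (by omega) (fun p hp => (hP1 p hp).2.le) N hN hS1
    (1 / (2 * ((P.card : ℝ) ^ 2 + 1))) (by positivity) (by
      rw [mul_one_div, div_le_one (by positivity)]
      nlinarith [sq_nonneg (P.card : ℝ)]) f F hf hF hyp
  refine h.trans ?_
  have a1 : 4 / Real.sqrt (SS P) ≤ ε / 2 := by
    rw [div_le_iff₀ (by linarith)]
    have := mul_le_mul_of_nonneg_left hsq (by positivity : 0 ≤ ε / 2)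
    have e : ε / 2 * (8 / ε) = 4 := by field_simp; norm_num
    linarith
  have a2 : 2 / (R : ℝ) ≤ ε / 2 := by
    rw [div_le_iff₀ hR0]
    have := mul_le_mul_of_nonneg_left hR1.le (by positivity : 0 ≤ ε / 2)
    have e : ε / 2 * (4 / ε) = 2 := by field_simp; norm_num
    linarith
  have hN0 : (0 : ℝ) ≤ N := Nat.cast_nonneg _
  nlinarith

end Pool.Agent.W699.TLKat
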