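import Pool.Agent.W842.BV.Stms

/-! BV-VC1, BV-VC2, BV-VC3. -/

set_option autoImplicit false

namespace Pool.Agent.W699.BVVC

open Finset
open Pool.Agent.W842.BV

theorem mem_sph {D r : ℕ} {a : Fin D → ℤ} : a ∈ sph D r ↔ ∑ i, a i ^ 2 = (r : ℤ) := by
  unfold sph
  rw [mem_filter, Fintype.mem_piFinset]
  constructor
  · exact fun h => h.2
  · intro h
    refine ⟨fun i => ?_, h⟩
    have h1 : a i ^ 2 ≤ ∑ i, a i ^ 2 :=
      Finset.single_le_sum (f := fun i => a i ^ 2) (fun j _ => sq_nonneg (a j)) (mem_univ i)
    rw [h] at h1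
    rw [mem_Icc]
    constructor <;> nlinarith [sq_nonneg (a i - 1), sq_nonneg (a i + 1)]

theorem coord {D r R : ℕ} (hr : r ≤ R ^ 2) {a : Fin D → ℤ} (ha : a ∈ sph D r) (h : Fin D) :
    |a h| ≤ R := by
  have h0 := mem_sph.1 ha
  have h1 : a h ^ 2 ≤ ∑ i, a i ^ 2 :=
    Finset.single_le_sum (f := fun i => a i ^ 2) (fun j _ => sq_nonneg (a j)) (mem_univ h)
  rw [h0] at h1
  have h2 : (r : ℤ) ≤ (R : ℤ) ^ 2 := by exact_mod_cast hr
  exact abs_le_of_sq_le_sq (h1.trans h2) (by positivity)

theorem lift {M : ℕ} {x y : ℤ} (h : (x : ZMod M) = (y : ZMod M)) (hlt : |x - y| < M) : x = y := by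
  have h1 : (M : ℤ) ∣ y - x := (ZMod.intCast_eq_intCast_iff_dvd_sub x y M).1 h
  have h2 : (M : ℤ) ∣ x - y := by
    rw [← dvd_neg, neg_sub]; exact h1
  have := Int.eq_zero_of_abs_lt_dvd h2 hlt
  linarith

/-- Lemma A -/
theorem lemA {D r R M s : ℕ} (hr : r ≤ R ^ 2) (m : ℤ) (hM : (2 + 2 * |m|) * R < M)
    (δ : Fin s → Fin D → ℤ) (hδ : ∀ j k h, |δ j h - δ k h| ≤ 2 * R) (γ : Fin D → ZMod M)
    (T : Finset (Fin s)) (hT : T.Nonempty)
    (hyp : ∀ j, (j ∈ T ↔ ∃ a ∈ sph D r, ∀ h, ((a h : ℤ) : ZMod M)
      = γ h + (m : ZMod M) * ((δ j h : ℤ) : ZMod M))) :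
    ∃ c : Fin D → ℤ, ∀ j, (j ∈ T ↔ ∑ h, (c h + m * δ j h) ^ 2 = (r : ℤ)) := by
  obtain ⟨k, hk⟩ := hT
  obtain ⟨a', ha', e'⟩ := (hyp k).1 hk
  refine ⟨fun h => a' h - m * δ k h, fun j => ?_⟩
  constructor
  · intro hj
    obtain ⟨a, ha, e⟩ := (hyp j).1 hj
    have : (fun h => a' h - m * δ k h + m * δ j h) = a := by
      funext h
      symm
      refine lift (M := M) ?_ ?_
      · push_cast
        rw [e h, e' h]
        ring
      · have h1 := coord hr ha h
        have h2 := coord hr ha' h
        have h3 := hδ k j h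
        have h4 : a h - (a' h - m * δ k h + m * δ j h) = a h - a' h + m * (δ k h - δ j h) := by
          ring
        rw [h4]
        have h5 : |m * (δ k h - δ j h)| ≤ |m| * (2 * R) := by
          rw [abs_mul]
          exact mul_le_mul_of_nonneg_left h3 (abs_nonneg m)
        have h6 : |a h - a' h| ≤ |a h| + |a' h| := abs_sub _ _
        have h7 := abs_add_le (a h - a' h) (m * (δ k h - δ j h))
        nlinarith
    simp only
    have h8 : ∑ h, (a' h - m * δ k h + m * δ j h) ^ 2 = ∑ h, a h ^ 2 :=
      Finset.sum_congr rfl fun h _ => by rw [← congrFun this h]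
    rw [h8]
    exact mem_sph.1 ha
  · intro hj
    refine (hyp j).2 ⟨fun h => a' h - m * δ k h + m * δ j h, mem_sph.2 hj, fun h => ?_⟩
    push_cast
    rw [e' h]
    ring

/-- Lemma C -/
theorem lemC (hV : S_VLA) {D s : ℕ} (r : ℤ) (hs : 2 ≤ s) (δ : Fin s → Fin D → ℤ)
    (hyp : ∀ T : Finset (Fin s), T.Nonempty → ∃ (m : ℤ) (c : Fin D → ℤ), m ≠ 0 ∧
      ∀ j, (j ∈ T ↔ ∑ h, (c h + m * δ j h) ^ 2 = r)) : s ≤ D + 1 := by
  have hne : ∀ i : Fin s, (univ.erase i : Finset (Fin s)).Nonempty := by
    intro i
    rw [← Finset.card_pos, Finset.card_erase_of_mem (mem_univ i), Finset.card_univ,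
      Fintype.card_fin]
    omega
  have huniv : (univ : Finset (Fin s)).Nonempty := ⟨⟨0, by omega⟩, mem_univ _⟩
  obtain ⟨m0, c0, hm0, h0⟩ := hyp univ huniv
  choose m c hm hc using fun i : Fin s => hyp (univ.erase i) (hne i)
  refine hV D s r δ m0 c0 m c hm0 (fun j => (h0 j).1 (mem_univ j)) (fun i j hij => ?_)
    (fun j hj => ?_)
  · exact (hc i j).1 (mem_erase.2 ⟨hij.symm, mem_univ j⟩)
  · exact (notMem_erase j univ) ((hc j j).2 hj)

theorem wrap {X Y Z : Type} (S : Finset X) (P : X → Y → Prop) (Q : X → Z → Prop)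
    (h : ∀ T ⊆ S, T.Nonempty → (∃ w, ∀ u ∈ S, (u ∈ T ↔ P u w)) ∨
      (∃ y, ∀ u ∈ S, (u ∈ T ↔ Q u y))) :
    ∃ u : Fin S.card → X, ∀ T : Finset (Fin S.card), T.Nonempty →
      (∃ w, ∀ j, (j ∈ T ↔ P (u j) w)) ∨ ∃ y, ∀ j, (j ∈ T ↔ Q (u j) y) := by
  classical
  refine ⟨fun j => (S.equivFin.symm j : X), fun T hT => ?_⟩
  have inj : Function.Injective fun j => (S.equivFin.symm j : X) := fun a b hab =>
    S.equivFin.symm.injective (Subtype.ext hab)
  have hsub : T.image (fun j => (S.equivFin.symm j : X)) ⊆ S := by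
    intro x hx
    obtain ⟨j, _, rfl⟩ := mem_image.1 hx
    exact (S.equivFin.symm j).2
  have key : ∀ j, (j ∈ T ↔ (S.equivFin.symm j : X) ∈ T.image (fun j => (S.equivFin.symm j : X))) :=
    fun j => (inj.mem_finset_image).symm
  rcases h _ hsub (hT.image _) with ⟨w, hw⟩ | ⟨y, hy⟩
  · left
    exact ⟨w, fun j => (key j).trans (hw _ (S.equivFin.symm j).2)⟩
  · right
    exact ⟨y, fun j => (key j).trans (hy _ (S.equivFin.symm j).2)⟩

theorem half {N : ℕ} (u v : ZMod N) (x : ℤ)
    (h : dbl u = dbl v + (x : ZMod (2 * N))) : ∃ y : ℤ, x = 2 * y := by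
  unfold dbl at h
  have h1 : (((2 * u.val : ℕ) : ℤ) : ZMod (2 * N)) = (((2 * v.val : ℕ) : ℤ) + x : ℤ) := by
    push_cast at h ⊢
    exact h
  rw [ZMod.intCast_eq_intCast_iff_dvd_sub] at h1
  obtain ⟨k, hk⟩ := h1
  push_cast at hk
  refine ⟨N * k - v.val + u.val, ?_⟩
  linarith

theorem diff2R {D r R s : ℕ} (hr : r ≤ R ^ 2) (a : Fin s → Fin D → ℤ) (ha : ∀ j, a j ∈ sph D r)
    (j k : Fin s) (h : Fin D) : |a j h - a k h| ≤ 2 * R := by
  have h1 := coord hr (ha j) h
  have h2 := coord hr (ha k) h
  have h3 : |a j h - a k h| ≤ |a j h| + |a k h| := abs_sub _ _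
  linarith

theorem t_VC1 : S_VC1 := by
  intro hD hV D N r R _ hr hN S hS
  obtain ⟨hd1, hd2⟩ := hD
  by_cases hs : S.card < 2
  · omega
  have hs2 : 2 ≤ S.card := not_lt.1 hs
  obtain ⟨u, hu⟩ := wrap S (fun u w => UW r u w) (fun u y => UY r u y) hS
  let z : Fin S.card := ⟨0, by omega⟩
  have huniv : (univ : Finset (Fin S.card)).Nonempty := ⟨z, mem_univ _⟩
  have hNR : (4 * (R : ℤ)) < N := by exact_mod_cast hN
  have hB : ∃ δ : Fin S.card → Fin D → ℤ, (∀ j k h, |δ j h - δ k h| ≤ 2 * R) ∧
      ∀ j h, u j h = u z h + ((δ j h : ℤ) : ZMod N) := by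
    rcases hu univ huniv with ⟨w, hw⟩ | ⟨y, hy⟩
    · choose a ha e using fun j => (hw j).1 (mem_univ j)
      refine ⟨fun j h => a z h - a j h, fun j k h => ?_, fun j h => ?_⟩
      · have := diff2R hr a ha k j h
        have e2 : a z h - a j h - (a z h - a k h) = a k h - a j h := by ring
        rw [e2]; exact this
      · have h1 := congrFun (e j) h
        have h2 := congrFun (e z) h
        push_cast
        have h3 : u j h + (a j h : ZMod N) = u z h + (a z h : ZMod N) := h1.symm.trans h2
        linear_combination h3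
    · choose a ha e using fun j => (hy j).1 (mem_univ j)
      have h3 : ∀ j h, dbl (u j h) = dbl (u z h) + ((a z h - a j h : ℤ) : ZMod (2 * N)) := by
        intro j h
        have h1 := congrFun (e j) h
        have h2 := congrFun (e z) h
        have h4 := h1.symm.trans h2
        push_cast
        linear_combination h4
      choose δ hδ using fun j h => half _ _ _ (h3 j h)
      refine ⟨δ, fun j k h => ?_, fun j h => ?_⟩
      · have h5 := diff2R hr a ha k j h
        have h6 : a k h - a j h = 2 * (δ j h - δ k h) := by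
          have := hδ j h
          have := hδ k h
          linarith
        rw [h6, abs_mul] at h5
        have : |(2 : ℤ)| = 2 := rfl
        rw [this] at h5
        have := abs_nonneg (δ j h - δ k h)
        linarith
      · refine hd2 N _ _ ?_
        rw [hd1, h3 j h, hδ j h]
        push_cast
        ring
  obtain ⟨δ, hδ, hδu⟩ := hB
  refine lemC hV (r : ℤ) hs2 δ fun T hT => ?_
  rcases hu T hT with ⟨w, hw⟩ | ⟨y, hy⟩
  · obtain ⟨c, hc⟩ := lemA (M := N) hr (-1) (by simp; linarith) δ hδ (fun h => w h - u z h) T hT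
      (fun j => by
        rw [hw j]
        unfold UW
        constructor
        · rintro ⟨a, ha, e⟩
          refine ⟨a, ha, fun h => ?_⟩
          have := congrFun e h
          rw [hδu j h] at this
          push_cast
          linear_combination -this
        · rintro ⟨a, ha, e⟩
          refine ⟨a, ha, ?_⟩
          funext h
          have := e h
          push_cast at this
          rw [hδu j h]
          linear_combination -this)
    exact ⟨-1, c, by norm_num, hc⟩
  · obtain ⟨c, hc⟩ := lemA (M := 2 * N) hr (-2) (by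
        have : |(-2 : ℤ)| = 2 := rfl
        rw [this]; push_cast; linarith [Int.natCast_nonneg R]) δ hδ
      (fun h => y h - dbl (u z h)) T hT
      (fun j => by
        rw [hy j]
        unfold UY
        constructor
        · rintro ⟨a, ha, e⟩
          refine ⟨a, ha, fun h => ?_⟩
          have := congrFun e h
          rw [hδu j h, hd1] at this
          push_cast
          linear_combination -this
        · rintro ⟨a, ha, e⟩
          refine ⟨a, ha, ?_⟩
          funext h
          have := e h
          push_cast at this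
          rw [hδu j h, hd1]
          linear_combination -this)
    exact ⟨-2, c, by norm_num, hc⟩

theorem t_VC2 : S_VC2 := by
  intro hD hV D N r R _ hr hN S hS
  obtain ⟨hd1, hd2⟩ := hD
  by_cases hs : S.card < 2
  · omega
  have hs2 : 2 ≤ S.card := not_lt.1 hs
  obtain ⟨u, hu⟩ := wrap S (fun w u => UW r u w) (fun w y => WY r w y) hS
  let z : Fin S.card := ⟨0, by omega⟩
  have huniv : (univ : Finset (Fin S.card)).Nonempty := ⟨z, mem_univ _⟩
  have hNR : (4 * (R : ℤ)) < N := by exact_mod_cast hN
  have hB : ∃ δ : Fin S.card → Fin D → ℤ, (∀ j k h, |δ j h - δ k h| ≤ 2 * R) ∧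
      ∀ j h, u j h = u z h + ((δ j h : ℤ) : ZMod N) := by
    rcases hu univ huniv with ⟨w, hw⟩ | ⟨y, hy⟩
    · choose a ha e using fun j => (hw j).1 (mem_univ j)
      refine ⟨fun j h => a j h - a z h, fun j k h => ?_, fun j h => ?_⟩
      · have := diff2R hr a ha j k h
        have e2 : a j h - a z h - (a k h - a z h) = a j h - a k h := by ring
        rw [e2]; exact this
      · have h1 := congrFun (e j) h
        have h2 := congrFun (e z) h
        push_cast
        rw [h1, h2]
        ring
    · choose a ha e using fun j => (hy j).1 (mem_univ j)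
      have h3 : ∀ j h, dbl (u j h) = dbl (u z h) + ((a j h - a z h : ℤ) : ZMod (2 * N)) := by
        intro j h
        have h1 := congrFun (e j) h
        have h2 := congrFun (e z) h
        have h4 := h1.symm.trans h2
        push_cast
        linear_combination h4
      choose δ hδ using fun j h => half _ _ _ (h3 j h)
      refine ⟨δ, fun j k h => ?_, fun j h => ?_⟩
      · have h5 := diff2R hr a ha j k h
        have h6 : a j h - a k h = 2 * (δ j h - δ k h) := by
          have := hδ j h
          have := hδ k h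
          linarith
        rw [h6, abs_mul] at h5
        have : |(2 : ℤ)| = 2 := rfl
        rw [this] at h5
        have := abs_nonneg (δ j h - δ k h)
        linarith
      · refine hd2 N _ _ ?_
        rw [hd1, h3 j h, hδ j h]
        push_cast
        ring
  obtain ⟨δ, hδ, hδu⟩ := hB
  refine lemC hV (r : ℤ) hs2 δ fun T hT => ?_
  rcases hu T hT with ⟨w, hw⟩ | ⟨y, hy⟩
  · obtain ⟨c, hc⟩ := lemA (M := N) hr 1 (by simp; linarith) δ hδ (fun h => u z h - w h) T hT
      (fun j => by
        rw [hw j]
        unfold UW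
        constructor
        · rintro ⟨a, ha, e⟩
          refine ⟨a, ha, fun h => ?_⟩
          have := congrFun e h
          rw [hδu j h] at this
          push_cast
          linear_combination -this
        · rintro ⟨a, ha, e⟩
          refine ⟨a, ha, ?_⟩
          funext h
          have := e h
          push_cast at this
          rw [hδu j h]
          linear_combination -this)
    exact ⟨1, c, by norm_num, hc⟩
  · obtain ⟨c, hc⟩ := lemA (M := 2 * N) hr 2 (by
        have : |(2 : ℤ)| = 2 := rfl
        rw [this]; push_cast; linarith [Int.natCast_nonneg R]) δ hδ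
      (fun h => dbl (u z h) - y h) T hT
      (fun j => by
        rw [hy j]
        unfold WY
        constructor
        · rintro ⟨a, ha, e⟩
          refine ⟨a, ha, fun h => ?_⟩
          have := congrFun e h
          rw [hδu j h, hd1] at this
          push_cast
          linear_combination this
        · rintro ⟨a, ha, e⟩
          refine ⟨a, ha, ?_⟩
          funext h
          have := e h
          push_cast at this
          rw [hδu j h, hd1]
          linear_combination this)
    exact ⟨2, c, by norm_num, hc⟩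

theorem t_VC3 : S_VC3 := by
  intro hD hV D N r R _ hr hN S hS
  obtain ⟨hd1, hd2⟩ := hD
  by_cases hs : S.card < 2
  · omega
  have hs2 : 2 ≤ S.card := not_lt.1 hs
  obtain ⟨u, hu⟩ := wrap S (fun y u => UY r u y) (fun y w => WY r w y) hS
  let z : Fin S.card := ⟨0, by omega⟩
  have huniv : (univ : Finset (Fin S.card)).Nonempty := ⟨z, mem_univ _⟩
  have hNR : (4 * (R : ℤ)) < N := by exact_mod_cast hN
  have hB : ∃ δ : Fin S.card → Fin D → ℤ, (∀ j k h, |δ j h - δ k h| ≤ 2 * R) ∧
      ∀ j h, u j h = u z h + ((δ j h : ℤ) : ZMod (2 * N)) := by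
    rcases hu univ huniv with ⟨w, hw⟩ | ⟨y, hy⟩
    · choose a ha e using fun j => (hw j).1 (mem_univ j)
      refine ⟨fun j h => a j h - a z h, fun j k h => ?_, fun j h => ?_⟩
      · have := diff2R hr a ha j k h
        have e2 : a j h - a z h - (a k h - a z h) = a j h - a k h := by ring
        rw [e2]; exact this
      · have h1 := congrFun (e j) h
        have h2 := congrFun (e z) h
        push_cast
        rw [h1, h2]
        ring
    · choose a ha e using fun j => (hy j).1 (mem_univ j)
      refine ⟨fun j h => a z h - a j h, fun j k h => ?_, fun j h => ?_⟩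
      · have := diff2R hr a ha k j h
        have e2 : a z h - a j h - (a z h - a k h) = a k h - a j h := by ring
        rw [e2]; exact this
      · have h1 := congrFun (e j) h
        have h2 := congrFun (e z) h
        push_cast
        rw [h1, h2]
        ring
  obtain ⟨δ, hδ, hδu⟩ := hB
  refine lemC hV (r : ℤ) hs2 δ fun T hT => ?_
  rcases hu T hT with ⟨w, hw⟩ | ⟨y, hy⟩
  · obtain ⟨c, hc⟩ := lemA (M := 2 * N) hr 1 (by
        have : |(1 : ℤ)| = 1 := rfl
        rw [this]; push_cast; linarith [Int.natCast_nonneg R]) δ hδ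
      (fun h => u z h - dbl (w h)) T hT
      (fun j => by
        rw [hw j]
        unfold UY
        constructor
        · rintro ⟨a, ha, e⟩
          refine ⟨a, ha, fun h => ?_⟩
          have := congrFun e h
          rw [hδu j h] at this
          push_cast
          linear_combination -this
        · rintro ⟨a, ha, e⟩
          refine ⟨a, ha, ?_⟩
          funext h
          have := e h
          push_cast at this
          rw [hδu j h]
          linear_combination -this)
    exact ⟨1, c, by norm_num, hc⟩
  · obtain ⟨c, hc⟩ := lemA (M := 2 * N) hr (-1) (by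
        have : |(-1 : ℤ)| = 1 := rfl
        rw [this]; push_cast; linarith [Int.natCast_nonneg R]) δ hδ
      (fun h => dbl (y h) - u z h) T hT
      (fun j => by
        rw [hy j]
        unfold WY
        constructor
        · rintro ⟨a, ha, e⟩
          refine ⟨a, ha, fun h => ?_⟩
          have := congrFun e h
          rw [hδu j h] at this
          push_cast
          linear_combination this
        · rintro ⟨a, ha, e⟩
          refine ⟨a, ha, ?_⟩
          funext h
          have := e h
          push_cast at this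
          rw [hδu j h]
          linear_combination this)
    exact ⟨-1, c, by norm_num, hc⟩

end Pool.Agent.W699.BVVC
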