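import Pool.Agent.W600.DM.Stm

/-!
# p-adic exponential sums along `D^j`: proof of `S_Exp`
-/

set_option autoImplicit false

open Filter Topology NormedSpace

namespace Pool.Agent.W699.DM

open Pool.Agent.W600.DM

section basics

variable {K : Type} [NontriviallyNormedField K] [IsUltrametricDist K]

lemma norm_nat_le (n : ℕ) : ‖(n : K)‖ ≤ 1 := by
  have := (isUltrametricDist_iff_forall_norm_natCast_le_one (R := K)).1 inferInstance
  exact this n

lemma norm_int_le (n : ℤ) : ‖(n : K)‖ ≤ 1 := by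
  rcases Int.eq_nat_or_neg n with ⟨m, rfl | rfl⟩
  · simpa using norm_nat_le m
  · simpa using norm_nat_le m

lemma norm_coprime {p m : ℕ} (hp : ‖(p : K)‖ < 1) (h : Nat.Coprime m p) : ‖(m : K)‖ = 1 := by
  refine le_antisymm (norm_nat_le m) ?_
  by_contra hlt
  push Not at hlt
  have h1 : ((m : ℤ) * (Int.gcdA (m:ℤ) (p:ℤ)) + (p : ℤ) * (Int.gcdB (m:ℤ) (p:ℤ)) : ℤ) = 1 := by
    rw [← Int.gcd_eq_gcd_ab]
    simp only [Int.gcd_natCast_natCast, Nat.cast_eq_one]
    exact h
  have h2 : (1 : K) = (m : K) * ((Int.gcdA (m:ℤ) (p:ℤ) : ℤ) : K) +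
      (p : K) * ((Int.gcdB (m:ℤ) (p:ℤ) : ℤ) : K) := by
    have := congrArg (fun z : ℤ => (z : K)) h1
    push_cast at this
    exact this.symm
  have h3 : ‖(1 : K)‖ < 1 := by
    rw [h2]
    refine lt_of_le_of_lt (IsUltrametricDist.norm_add_le_max _ _) (max_lt ?_ ?_)
    · rw [norm_mul]
      exact lt_of_le_of_lt (mul_le_of_le_one_right (norm_nonneg _) (norm_int_le _)) hlt
    · rw [norm_mul]
      exact lt_of_le_of_lt (mul_le_of_le_one_right (norm_nonneg _) (norm_int_le _)) hp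
  simp at h3

lemma norm_factorial_ge {p : ℕ} (hpp : p.Prime) (hp : ‖(p : K)‖ < 1) (n : ℕ) :
    ‖(p : K)‖ ^ n ≤ ‖((n.factorial : ℕ) : K)‖ := by
  have : Fact p.Prime := ⟨hpp⟩
  have h0 := Nat.factorial_ne_zero n
  have h1 : ((n.factorial : ℕ) : K) = (p : K) ^ (n.factorial.factorization p) *
      ((n.factorial / p ^ (n.factorial.factorization p) : ℕ) : K) := by
    have := Nat.ordProj_mul_ordCompl_eq_self n.factorial p
    conv_lhs => rw [← this]
    push_cast
    rfl
  rw [h1, norm_mul, norm_pow, norm_coprime hp (Nat.coprime_ordCompl hpp h0).symm, mul_one]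
  refine pow_le_pow_of_le_one (norm_nonneg _) hp.le ?_
  rw [Nat.factorization_def _ hpp]
  exact padicValNat_factorial_le p n

lemma norm_sub_one_pow {b : K} {δ : ℝ} (hb : ‖b - 1‖ ≤ δ) (hδ : δ < 1) (i : ℕ) :
    ‖b ^ i - 1‖ ≤ δ := by
  have hb1 : ‖b‖ ≤ 1 := by
    have : b = (b - 1) + 1 := by ring
    rw [this]
    refine (IsUltrametricDist.norm_add_le_max _ _).trans (max_le (hb.trans hδ.le) (by simp))
  induction i with
  | zero => simpa using (norm_nonneg _).trans hb
  | succ i ih =>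
    have : b ^ (i + 1) - 1 = (b ^ i - 1) * b + (b - 1) := by ring
    rw [this]
    refine (IsUltrametricDist.norm_add_le_max _ _).trans (max_le ?_ hb)
    rw [norm_mul]
    exact (mul_le_of_le_one_right (norm_nonneg _) hb1).trans ih

lemma norm_sub_one_step {b : K} {δ : ℝ} (hb : ‖b - 1‖ ≤ δ) (hδ : δ < 1) (D : ℕ) :
    ‖b ^ D - 1‖ ≤ max ‖(D : K)‖ δ * ‖b - 1‖ := by
  have h1 : b ^ D - 1 = ((D : K) + ∑ i ∈ Finset.range D, (b ^ i - 1)) * (b - 1) := by
    rw [Finset.sum_sub_distrib, ← geom_sum_mul]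
    simp
  rw [h1, norm_mul]
  refine mul_le_mul_of_nonneg_right ?_ (norm_nonneg _)
  refine (IsUltrametricDist.norm_add_le_max _ _).trans (max_le (le_max_left _ _) ?_)
  refine le_trans ?_ (le_max_right _ _)
  exact IsUltrametricDist.norm_sum_le_of_forall_le_of_nonneg ((norm_nonneg _).trans hb)
    (fun i _ => norm_sub_one_pow hb hδ i)

lemma norm_sub_one_iter {b : K} {δ : ℝ} (hb : ‖b - 1‖ ≤ δ) (hδ : δ < 1) (D : ℕ) (j : ℕ) :
    ‖b ^ (D ^ j) - 1‖ ≤ (max ‖(D : K)‖ δ) ^ j * δ := by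
  have hq : 0 ≤ max ‖(D : K)‖ δ := le_max_of_le_left (norm_nonneg _)
  induction j with
  | zero => simpa using hb
  | succ j ih =>
    have h1 : ‖b ^ (D ^ j) - 1‖ ≤ δ := norm_sub_one_pow hb hδ _
    have h2 := norm_sub_one_step h1 hδ D
    rw [pow_succ D j, pow_mul]
    refine h2.trans ?_
    rw [pow_succ', mul_assoc]
    exact mul_le_mul_of_nonneg_left ih hq

lemma tendsto_iter {b : K} (hb : ‖b - 1‖ < 1) {D : ℕ} (hD : ‖(D : K)‖ < 1) :
    Tendsto (fun j : ℕ => b ^ (D ^ j)) atTop (𝓝 1) := by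
  rw [tendsto_iff_norm_sub_tendsto_zero]
  have h0 : Tendsto (fun j : ℕ => (max ‖(D : K)‖ ‖b - 1‖) ^ j * ‖b - 1‖) atTop (𝓝 0) := by
    have := (tendsto_pow_atTop_nhds_zero_of_lt_one
      (le_max_of_le_left (norm_nonneg (D : K))) (max_lt hD hb)).mul_const ‖b - 1‖
    simpa using this
  exact squeeze_zero (fun _ => norm_nonneg _) (fun j => norm_sub_one_iter le_rfl hb D j) h0

end basics

section expo

variable {K : Type} [NontriviallyNormedField K] [IsUltrametricDist K] [CompleteSpace K] [CharZero K]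

omit [CompleteSpace K] [CharZero K] in
lemma radius_ge {p : ℕ} (hpp : p.Prime) (hp : ‖(p : K)‖ < 1) (hp0 : (p : K) ≠ 0) :
    (‖(p : K)‖₊ : ENNReal) ≤ (expSeries K K).radius := by
  refine FormalMultilinearSeries.le_radius_of_bound _ 1 fun n => ?_
  have h1 : ‖expSeries K K n‖ ≤ ‖((n.factorial : ℕ) : K)‖⁻¹ := by
    rw [expSeries, norm_smul, norm_inv]
    refine mul_le_of_le_one_right (by positivity) ?_
    simp
  have h2 := norm_factorial_ge (K := K) hpp hp n
  have h3 : 0 < ‖(p : K)‖ ^ n := pow_pos (norm_pos_iff.2 hp0) n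
  calc ‖expSeries K K n‖ * (‖(p : K)‖₊ : ℝ) ^ n
      ≤ ‖((n.factorial : ℕ) : K)‖⁻¹ * ‖(p : K)‖ ^ n := by
        rw [coe_nnnorm]
        exact mul_le_mul_of_nonneg_right h1 h3.le
    _ ≤ 1 := by
        rw [inv_mul_le_one₀ (h3.trans_le h2)]
        exact h2

end expo

theorem exp_main : S_Exp := by
  intro K _ _ _ _ p hpp hp D hD hpD S Cf hS hl hC hroot
  have hp0 : (p : K) ≠ 0 := by exact_mod_cast hpp.ne_zero
  have hrad := radius_ge (K := K) hpp hp hp0
  set R : ℝ := ‖(p : K)‖ with hR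
  have hR0 : 0 < R := norm_pos_iff.2 hp0
  have hradpos : 0 < (expSeries K K).radius := lt_of_lt_of_le (by
    rw [ENNReal.coe_pos]; exact hR0) hrad
  have hball : ∀ z : K, ‖z‖ < R → z ∈ Metric.eball (0 : K) (expSeries K K).radius := by
    intro z hz
    rw [Metric.mem_eball, edist_zero_right]
    refine lt_of_lt_of_le ?_ hrad
    rw [← ofReal_norm, ← ENNReal.ofReal_coe_nnreal]
    exact (ENNReal.ofReal_lt_ofReal_iff hR0).2 hz
  -- norm of D
  have hDn : ‖(D : K)‖ < 1 := by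
    obtain ⟨e, rfl⟩ := hpD
    push_cast
    rw [norm_mul]
    exact lt_of_le_of_lt (mul_le_of_le_one_right (norm_nonneg _) (norm_nat_le e)) hp
  have hD0 : (D : K) ≠ 0 := by
    have : D ≠ 0 := by omega
    exact_mod_cast this
  -- exp surjects onto a neighbourhood of 1
  have hder : HasStrictDerivAt (NormedSpace.exp : K → K) 1 0 :=
    hasStrictDerivAt_exp_zero_of_radius_pos hradpos
  have hmap : map (NormedSpace.exp : K → K) (𝓝 0) = 𝓝 1 := by
    have := hder.map_nhds_eq one_ne_zero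
    rwa [NormedSpace.exp_zero] at this
  have himg : (NormedSpace.exp : K → K) '' (Metric.ball 0 R) ∈ 𝓝 (1 : K) := by
    rw [← hmap]
    exact image_mem_map (Metric.ball_mem_nhds _ hR0)
  have hJ : ∃ J : ℕ, ∀ l ∈ S, l ^ (D ^ J) ∈ (NormedSpace.exp : K → K) '' (Metric.ball 0 R) := by
    have : ∀ᶠ J : ℕ in atTop, ∀ l ∈ S,
        l ^ (D ^ J) ∈ (NormedSpace.exp : K → K) '' (Metric.ball 0 R) := by
      rw [Filter.eventually_all_finset]
      intro l hlS
      exact (tendsto_iter (hl l hlS) hDn).eventually himg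
    exact this.exists
  obtain ⟨J, hJ⟩ := hJ
  choose! L hLball hLexp using hJ
  -- powers
  have hexp_nat : ∀ l ∈ S, ∀ m : ℕ, NormedSpace.exp ((m : K) * L l) = (l ^ (D ^ J)) ^ m := by
    intro l hlS m
    have hLl : ‖L l‖ < R := by simpa using hLball l hlS
    induction m with
    | zero => simp [NormedSpace.exp_zero]
    | succ m ih =>
      have : ((m + 1 : ℕ) : K) * L l = (m : K) * L l + L l := by push_cast; ring
      rw [this, exp_add_of_mem_ball (𝕂 := K) (hball _ ?_) (hball _ hLl), ih, hLexp l hlS, pow_succ]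
      rw [norm_mul]
      exact lt_of_le_of_lt (mul_le_of_le_one_left (norm_nonneg _) (norm_nat_le m)) hLl
  set g : K → K := fun z => ∑ l ∈ S, Cf l * NormedSpace.exp (z * L l) with hg
  have hg_nat : ∀ m : ℕ, g (m : K) = ∑ l ∈ S, Cf l * (l ^ (D ^ J)) ^ m := by
    intro m
    refine Finset.sum_congr rfl fun l hlS => ?_
    rw [hexp_nat l hlS m]
  have hgan : AnalyticAt K g 0 := by
    refine Finset.analyticAt_fun_sum _ fun l hlS => ?_
    refine analyticAt_const.mul ?_
    have h1 : AnalyticAt K (NormedSpace.exp : K → K) ((0 : K) * L l) := by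
      rw [zero_mul]
      exact analyticAt_exp_of_mem_ball 0 (hball 0 (by simpa using hR0))
    have h2 : AnalyticAt K (fun z : K => z * L l) 0 := analyticAt_id.mul analyticAt_const
    exact AnalyticAt.fun_comp h1 h2
  have hDtend : Tendsto (fun j : ℕ => (D : K) ^ j) atTop (𝓝 0) :=
    tendsto_pow_atTop_nhds_zero_of_norm_lt_one hDn
  -- g is not identically zero near 0
  have hne : ¬ ∀ᶠ z in 𝓝 (0 : K), g z = 0 := by
    intro hz
    obtain ⟨ε, hε, hball2⟩ := Metric.eventually_nhds_iff.1 hz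
    have h1 : ∀ᶠ j : ℕ in atTop, ‖(D : K) ^ j‖ < ε := by
      have := hDtend.eventually (Metric.ball_mem_nhds (0 : K) hε)
      simpa using this
    obtain ⟨j, hj⟩ := h1.exists
    have h2 : ∀ m : ℕ, ∑ l ∈ S, Cf l * (l ^ (D ^ (J + j))) ^ m = 0 := by
      intro m
      have h3 : g (((D ^ j * m : ℕ)) : K) = 0 := by
        apply hball2
        rw [dist_zero_right]
        push_cast
        rw [norm_mul]
        exact lt_of_le_of_lt (mul_le_of_le_one_right (norm_nonneg _) (norm_nat_le m)) hj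
      rw [hg_nat] at h3
      rw [← h3]
      refine Finset.sum_congr rfl fun l _ => ?_
      rw [← pow_mul, ← pow_mul, pow_add]
      congr 2
      ring
    -- Vandermonde
    classical
    let e : Fin S.card ≃ S := S.equivFin.symm
    have h4 := Matrix.eq_zero_of_forall_pow_sum_mul_pow_eq_zero
      (f := fun i : Fin S.card => ((e i : S) : K) ^ (D ^ (J + j)))
      (v := fun i : Fin S.card => Cf (e i : S)) ?_ ?_
    · obtain ⟨l, hlS⟩ := hS
      have h5 := congrFun h4 (e.symm ⟨l, hlS⟩)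
      simp only [Equiv.apply_symm_apply, Pi.zero_apply] at h5
      exact hC l hlS h5
    · intro a b hab
      have hab' : ((e a : S) : K) ^ (D ^ (J + j)) = ((e b : S) : K) ^ (D ^ (J + j)) := hab
      have := hroot _ (e a).2 _ (e b).2 (D ^ (J + j)) (Nat.one_le_pow _ _ (by omega)) hab'
      exact e.injective (Subtype.ext this)
    · intro i
      rw [← h2 (i : ℕ), ← Finset.sum_coe_sort S (fun l => Cf l * (l ^ (D ^ (J + j))) ^ (i : ℕ))]
      exact Equiv.sum_comp e (fun l : S => Cf (l : K) * ((l : K) ^ (D ^ (J + j))) ^ (i : ℕ))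
  obtain ⟨k, h, hhan, hh0, hgh⟩ := hgan.exists_eventuallyEq_pow_smul_nonzero_iff.2 hne
  have hhcont : ∀ᶠ z in 𝓝 (0 : K), ‖h 0‖ / 2 < ‖h z‖ := by
    have := hhan.continuousAt.norm
    refine this.eventually (lt_mem_nhds ?_)
    have : 0 < ‖h 0‖ := norm_pos_iff.2 hh0
    linarith
  have hcomb := (hgh.and hhcont)
  have hev : ∀ᶠ i : ℕ in atTop, g ((D : K) ^ i) = ((D : K) ^ i - 0) ^ k • h ((D : K) ^ i) ∧
      ‖h 0‖ / 2 < ‖h ((D : K) ^ i)‖ := hDtend.eventually hcomb
  obtain ⟨i₀, hi₀⟩ := eventually_atTop.1 hev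
  refine ⟨‖h 0‖ / 2, k, J + i₀, by have : 0 < ‖h 0‖ := norm_pos_iff.2 hh0; positivity, ?_⟩
  intro j hj
  obtain ⟨i, rfl⟩ := Nat.exists_eq_add_of_le (show J ≤ j by omega)
  obtain ⟨h1, h2⟩ := hi₀ i (by omega)
  have h3 : ∑ l ∈ S, Cf l * l ^ (D ^ (J + i)) = g ((D : K) ^ i) := by
    have := hg_nat (D ^ i)
    push_cast at this
    rw [this]
    refine Finset.sum_congr rfl fun l _ => ?_
    rw [← pow_mul, pow_add]
  rw [h3, h1, sub_zero, norm_smul, ← pow_mul, norm_pow, mul_comm]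
  refine mul_le_mul ?_ h2.le (by positivity) (by positivity)
  refine pow_le_pow_of_le_one (norm_nonneg _) hDn.le ?_
  nlinarith

end Pool.Agent.W699.DM
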