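import Pool.Agent.W757.BL.Defs

/-! BL-ELL: the range is an ellipse. -/

set_option autoImplicit false

namespace Pool.Agent.W699.BLEll

open Set Filter Topology
open Pool.Agent.W757.BL

theorem pd {A B C a b : ℝ} (hA : 0 < A) (hd : 0 < A * C - B ^ 2)
    (h : A * a ^ 2 + 2 * B * a * b + C * b ^ 2 ≤ 0) : a = 0 ∧ b = 0 := by
  have h1 : (A * a + B * b) ^ 2 + (A * C - B ^ 2) * b ^ 2
      = A * (A * a ^ 2 + 2 * B * a * b + C * b ^ 2) := by ring
  have h2 : A * (A * a ^ 2 + 2 * B * a * b + C * b ^ 2) ≤ 0 :=
    mul_nonpos_of_nonneg_of_nonpos hA.le h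
  have h3 : (A * C - B ^ 2) * b ^ 2 ≤ 0 := by nlinarith [sq_nonneg (A * a + B * b)]
  have hb : b = 0 := by
    have : b ^ 2 ≤ 0 := by
      by_contra hc
      have := mul_pos hd (not_le.1 hc)
      linarith
    exact pow_eq_zero_iff (two_ne_zero) |>.1 (le_antisymm this (sq_nonneg b))
  subst hb
  have ha : a = 0 := by
    have h4 : A * a ^ 2 ≤ 0 := by simpa using h
    have : a ^ 2 ≤ 0 := by
      by_contra hc
      have := mul_pos hA (not_le.1 hc)
      linarith
    exact pow_eq_zero_iff (two_ne_zero) |>.1 (le_antisymm this (sq_nonneg a))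
  exact ⟨ha, rfl⟩

theorem t_ELL : S_ELL := by
  intro x y x' y' L A B C D E F hv _ hA hd heq
  set Δ := A * C - B ^ 2 with hΔ
  have hΔ0 : Δ ≠ 0 := hd.ne'
  set u0 := (B * E - C * D) / Δ with hu0
  set v0 := (B * D - A * E) / Δ with hv0
  have e1 : A * u0 + B * v0 = -D := by
    rw [hu0, hv0]; field_simp; rw [hΔ]; ring
  have e2 : B * u0 + C * v0 = -E := by
    rw [hu0, hv0]; field_simp; rw [hΔ]; ring
  set k := A * u0 ^ 2 + 2 * B * u0 * v0 + C * v0 ^ 2 - F with hk
  have hQ : ∀ s, A * (x s - u0) ^ 2 + 2 * B * (x s - u0) * (y s - v0) + C * (y s - v0) ^ 2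
      = k := by
    intro s
    have := heq s
    rw [hk]
    linear_combination this - 2 * x s * e1 - 2 * y s * e2
  have hnc : ∀ c d : ℝ, ¬ ∀ s, x s = c ∧ y s = d := by
    intro c d h
    have hL := hv.L0
    have := hv.conv 0 (L / 2) (by linarith) (by linarith)
    rw [(h _).1, (h _).2, (h 0).1, (h 0).2] at this
    simp at this
  have hk0 : 0 < k := by
    by_contra hc
    refine hnc u0 v0 fun s => ?_
    have h1 := pd hA hd (a := x s - u0) (b := y s - v0) (by rw [hQ s]; exact not_lt.1 hc)
    exact ⟨by linarith [h1.1], by linarith [h1.2]⟩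
  refine ⟨⟨u0, v0⟩, A / k, B / k, C / k, by positivity, ?_, ?_⟩
  · have : A / k * (C / k) - (B / k) ^ 2 = (A * C - B ^ 2) / k ^ 2 := by field_simp
    rw [this]
    positivity
  · ext z
    constructor
    · rintro ⟨s, rfl⟩
      have h1 := hQ s
      simp only [mem_ofPred_eq]
      have h2 : A / k * (x s - u0) ^ 2 + 2 * (B / k) * (x s - u0) * (y s - v0)
          + C / k * (y s - v0) ^ 2 = (A * (x s - u0) ^ 2 + 2 * B * (x s - u0) * (y s - v0)
          + C * (y s - v0) ^ 2) / k := by ring
      rw [h2, h1, div_self hk0.ne']
    · intro hz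
      simp only [mem_ofPred_eq] at hz
      set p := z.re - u0 with hp
      set q := z.im - v0 with hq
      have hP : A * p ^ 2 + 2 * B * p * q + C * q ^ 2 = k := by
        have h2 : A / k * p ^ 2 + 2 * (B / k) * p * q + C / k * q ^ 2
          = (A * p ^ 2 + 2 * B * p * q + C * q ^ 2) / k := by ring
        rw [h2, div_eq_one_iff_eq hk0.ne'] at hz
        exact hz
      set g : ℝ → ℝ := fun s => (A * p + B * q) * x s + (B * p + C * q) * y s with hg
      have cx : Continuous x := continuous_iff_continuousAt.2 fun s => (hv.dx s).continuousAt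
      have cy : Continuous y := continuous_iff_continuousAt.2 fun s => (hv.dy s).continuousAt
      have gc : Continuous g := (continuous_const.mul cx).add (continuous_const.mul cy)
      have gp : Function.Periodic g L := by
        intro s
        simp only [hg]
        rw [hv.px, hv.py]
      obtain ⟨M, ⟨s, hs⟩, hM⟩ :=
        (gp.compact_of_continuous hv.L0.ne' gc).exists_isGreatest (range_nonempty g)
      have hmax : ∀ t, g t ≤ g s := fun t => by rw [hs]; exact hM ⟨t, rfl⟩
      have hdg : HasDerivAt g ((A * p + B * q) * x' s + (B * p + C * q) * y' s) s :=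
        ((hv.dx s).const_mul _).add ((hv.dy s).const_mul _)
      have hl : IsLocalMax g s := Eventually.of_forall hmax
      have d1 := hl.hasDerivAt_eq_zero hdg
      have d2 : (A * (x s - u0) + B * (y s - v0)) * x' s
          + (B * (x s - u0) + C * (y s - v0)) * y' s = 0 := by
        have hX : HasDerivAt (fun s => x s - u0) (x' s) s := (hv.dx s).sub_const _
        have hY : HasDerivAt (fun s => y s - v0) (y' s) s := (hv.dy s).sub_const _
        have h3 := (((hX.pow 2).const_mul A).add (((hX.mul hY)).const_mul (2 * B))).add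
          ((hY.pow 2).const_mul C)
        have h4 : HasDerivAt (fun _ : ℝ => k) 0 s := hasDerivAt_const s k
        have h5 : (fun _ : ℝ => k) = fun s => A * (x s - u0) ^ 2
            + 2 * B * ((x s - u0) * (y s - v0)) + C * (y s - v0) ^ 2 := by
          funext s; rw [← hQ s]; ring
        rw [h5] at h4
        have h6 := h4.unique h3
        push_cast at h6
        linarith
      have hne : x' s ≠ 0 ∨ y' s ≠ 0 := by
        by_contra hc
        push Not at hc
        have hL := hv.L0
        have := hv.conv s (s + L / 2) (by linarith) (by linarith)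
        rw [hc.1, hc.2] at this
        simp at this
      set X := x s - u0 with hX
      set Y := y s - v0 with hY
      have hdet : (A * X + B * Y) * (B * p + C * q) - (B * X + C * Y) * (A * p + B * q) = 0 := by
        rcases hne with h | h
        · have : x' s * ((A * X + B * Y) * (B * p + C * q)
              - (B * X + C * Y) * (A * p + B * q)) = 0 := by
            linear_combination (B * p + C * q) * d2 - (B * X + C * Y) * d1
          exact (mul_eq_zero.1 this).resolve_left h
        · have : y' s * ((A * X + B * Y) * (B * p + C * q)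
              - (B * X + C * Y) * (A * p + B * q)) = 0 := by
            linear_combination (A * X + B * Y) * d1 - (A * p + B * q) * d2
          exact (mul_eq_zero.1 this).resolve_left h
      have hXq : X * q - Y * p = 0 := by
        have : Δ * (X * q - Y * p) = 0 := by
          rw [hΔ]; linear_combination hdet
        exact (mul_eq_zero.1 this).resolve_left hΔ0
      set G := (A * p + B * q) * X + (B * p + C * q) * Y with hG
      have hQs : A * X ^ 2 + 2 * B * X * Y + C * Y ^ 2 = k := hQ s
      have hG2 : G ^ 2 = k ^ 2 := by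
        have : G ^ 2 = (A * X ^ 2 + 2 * B * X * Y + C * Y ^ 2)
            * (A * p ^ 2 + 2 * B * p * q + C * q ^ 2) - Δ * (X * q - Y * p) ^ 2 := by
          rw [hG, hΔ]; ring
        rw [this, hQs, hP, hXq]
        ring
      have hGv : ∀ t, (A * p + B * q) * (x t - u0) + (B * p + C * q) * (y t - v0) ≤ G := by
        intro t
        have := hmax t
        simp only [hg] at this
        rw [hG, hX, hY]
        linarith
      rcases sq_eq_sq_iff_eq_or_eq_neg.1 hG2 with h | h
      · have h1 := pd hA hd (a := X - p) (b := Y - q) (by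
          have : A * (X - p) ^ 2 + 2 * B * (X - p) * (Y - q) + C * (Y - q) ^ 2
            = (A * X ^ 2 + 2 * B * X * Y + C * Y ^ 2)
              + (A * p ^ 2 + 2 * B * p * q + C * q ^ 2) - 2 * G := by rw [hG]; ring
          rw [this, hQs, hP, h]
          linarith)
        refine ⟨s, ?_⟩
        apply Complex.ext
        · change x s = z.re
          linarith [h1.1]
        · change y s = z.im
          linarith [h1.2]
      · exfalso
        refine hnc (u0 - p) (v0 - q) fun t => ?_
        have h1 := pd hA hd (a := x t - u0 + p) (b := y t - v0 + q) (by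
          have e : A * (x t - u0 + p) ^ 2 + 2 * B * (x t - u0 + p) * (y t - v0 + q)
              + C * (y t - v0 + q) ^ 2
            = (A * (x t - u0) ^ 2 + 2 * B * (x t - u0) * (y t - v0) + C * (y t - v0) ^ 2)
              + (A * p ^ 2 + 2 * B * p * q + C * q ^ 2)
              + 2 * ((A * p + B * q) * (x t - u0) + (B * p + C * q) * (y t - v0)) := by ring
          rw [e, hQ t, hP]
          have := hGv t
          rw [h] at this
          linarith)
        exact ⟨by linarith [h1.1], by linarith [h1.2]⟩

end Pool.Agent.W699.BLEll
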