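import Pool.Agent.W988.RA.Defs

/-!
# Project RA, part PVV: mean volume of the polar body
-/

set_option autoImplicit false

namespace Pool.Agent.W699.RA_PVV

open MeasureTheory Set Pool.Agent.W988.RA
open scoped ENNReal BigOperators

lemma int_one (a : ℝ) (ha : 0 ≤ a) : ∫ _x in Icc (-a) a, (1 : ℝ) = 2 * a := by
  rw [integral_Icc_eq_integral_Ioc, ← intervalIntegral.integral_of_le (by linarith)]
  simp
  ring

lemma int_x (a : ℝ) (ha : 0 ≤ a) : ∫ x in Icc (-a) a, x = 0 := by
  rw [integral_Icc_eq_integral_Ioc, ← intervalIntegral.integral_of_le (by linarith), integral_id]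
  ring

lemma int_xx (a : ℝ) (ha : 0 ≤ a) : ∫ x in Icc (-a) a, x * x = 2 * a * (a ^ 2 / 3) := by
  rw [integral_Icc_eq_integral_Ioc, ← intervalIntegral.integral_of_le (by linarith)]
  have : ∀ x : ℝ, x * x = x ^ 2 := fun x => by ring
  simp only [this]
  rw [integral_pow]
  push_cast
  ring

lemma int_prod (n : ℕ) (a : ℝ) (ha : 0 ≤ a) (j k : Fin n) :
    ∫ v in Icc (fun _ : Fin n => -a) (fun _ => a), v j * v k =
      if j = k then (2 * a) ^ n * (a ^ 2 / 3) else 0 := by
  have h1 : ∀ v : Fin n → ℝ, v j * v k = ∏ i, ((if i = j then v i else 1) *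
      (if i = k then v i else 1)) := by
    intro v
    rw [Finset.prod_mul_distrib]
    simp
  have h2 : (volume : Measure (Fin n → ℝ)).restrict (Icc (fun _ : Fin n => -a) (fun _ => a)) =
      Measure.pi (fun _ : Fin n => (volume : Measure ℝ).restrict (Icc (-a) a)) := by
    rw [← pi_univ_Icc, volume_pi, Measure.restrict_pi_pi]
  rw [h2]
  simp only [h1]
  rw [integral_fintype_prod_eq_prod (𝕜 := ℝ) (fun i (x : ℝ) => (if i = j then x else 1) *
      (if i = k then x else 1))]
  split_ifs with h
  · subst h
    have : ∀ i : Fin n, ∫ x in Icc (-a) a, ((if i = j then x else 1) *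
      (if i = j then x else 1)) = (2 * a) * (if i = j then a ^ 2 / 3 else 1) := by
      intro i
      split_ifs with hi
      · exact int_xx a ha
      · simp only [mul_one]
        exact int_one a ha
    rw [Finset.prod_congr rfl fun i _ => this i, Finset.prod_mul_distrib]
    simp
  · refine Finset.prod_eq_zero (Finset.mem_univ j) ?_
    simp only [if_true, if_neg h, mul_one]
    exact int_x a ha

lemma slab (n : ℕ) (hn : 0 < n) (y : Fin n → ℝ) (hy : ∀ k, |y k| ≤ 1) :
    ENNReal.ofReal (2 / 3 * (2 / Real.sqrt n) ^ n) ≤ volume {v : Fin n → ℝ |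
      (∀ k, |v k| ≤ 1 / Real.sqrt n) ∧ |∑ k, y k * v k| ≤ 1} := by
  set a : ℝ := 1 / Real.sqrt n with ha
  have hn' : (0 : ℝ) < n := by exact_mod_cast hn
  have ha0 : 0 ≤ a := by positivity
  have ha2 : a ^ 2 = 1 / n := by
    rw [ha, div_pow, Real.sq_sqrt hn'.le, one_pow]
  have h2a : 2 / Real.sqrt n = 2 * a := by rw [ha]; ring
  rw [h2a]
  set C : Set (Fin n → ℝ) := Icc (fun _ : Fin n => -a) (fun _ => a) with hC
  have hCm : ∀ v, v ∈ C ↔ ∀ k, |v k| ≤ a := by
    intro v
    rw [hC, mem_Icc, Pi.le_def, Pi.le_def, ← forall_and]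
    exact forall_congr' fun k => abs_le.symm
  have hCv : volume C = ENNReal.ofReal ((2 * a) ^ n) := by
    rw [hC, Real.volume_Icc_pi]
    simp only [Finset.prod_const, Finset.card_univ, Fintype.card_fin]
    rw [ENNReal.ofReal_pow (by positivity)]
    congr 2
    ring
  have hcont : Continuous fun v : Fin n → ℝ => (∑ k, y k * v k) ^ 2 := by fun_prop
  have hint : ∫ v in C, (∑ k, y k * v k) ^ 2 ≤ (2 * a) ^ n / 3 := by
    have e : ∀ v : Fin n → ℝ, (∑ k, y k * v k) ^ 2 = ∑ j, ∑ k, (y j * y k) * (v j * v k) := by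
      intro v
      rw [pow_two, Finset.sum_mul_sum]
      refine Finset.sum_congr rfl fun j _ => Finset.sum_congr rfl fun k _ => by ring
    simp only [e]
    have hI : ∀ j k : Fin n, IntegrableOn (fun v : Fin n → ℝ => (y j * y k) * (v j * v k)) C := by
      intro j k
      have : Continuous (fun v : Fin n → ℝ => (y j * y k) * (v j * v k)) := by fun_prop
      exact this.integrableOn_Icc
    rw [integral_finsetSum _ fun j _ => integrable_finsetSum _ fun k _ => hI j k]
    have e2 : ∀ j : Fin n, ∫ v in C, ∑ k, (y j * y k) * (v j * v k) =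
        (y j * y j) * ((2 * a) ^ n * (a ^ 2 / 3)) := by
      intro j
      rw [integral_finsetSum _ fun k _ => hI j k]
      have : ∀ k : Fin n, ∫ v in C, (y j * y k) * (v j * v k) =
          if j = k then (y j * y k) * ((2 * a) ^ n * (a ^ 2 / 3)) else 0 := by
        intro k
        rw [integral_const_mul, int_prod n a ha0 j k]
        split_ifs <;> simp
      rw [Finset.sum_congr rfl fun k _ => this k]
      simp
    rw [Finset.sum_congr rfl fun j _ => e2 j]
    calc ∑ j, (y j * y j) * ((2 * a) ^ n * (a ^ 2 / 3))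
        ≤ ∑ _j : Fin n, 1 * ((2 * a) ^ n * (a ^ 2 / 3)) := by
          refine Finset.sum_le_sum fun j _ => mul_le_mul_of_nonneg_right ?_ (by positivity)
          have h1 := hy j
          rw [← abs_mul_abs_self]
          nlinarith [abs_nonneg (y j)]
      _ = (2 * a) ^ n / 3 := by
          rw [Finset.sum_const, Finset.card_univ, Fintype.card_fin, nsmul_eq_mul, ha2]
          field_simp
  set A : Set (Fin n → ℝ) := {v | (∀ k, |v k| ≤ a) ∧ |∑ k, y k * v k| ≤ 1} with hA
  set B : Set (Fin n → ℝ) := {v | 1 ≤ |∑ k, y k * v k|} with hB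
  have hBm : MeasurableSet B := by
    refine (isClosed_le continuous_const ?_).measurableSet
    fun_prop
  have hcov : C ⊆ A ∪ (B ∩ C) := by
    intro v hv
    rcases le_total |∑ k, y k * v k| 1 with h | h
    · exact Or.inl ⟨(hCm v).1 hv, h⟩
    · exact Or.inr ⟨h, hv⟩
  have hBle : volume (B ∩ C) ≤ ENNReal.ofReal ((2 * a) ^ n / 3) := by
    rw [← Measure.restrict_apply hBm]
    calc (volume.restrict C) B ≤ ∫⁻ v in C, ENNReal.ofReal ((∑ k, y k * v k) ^ 2) := by
          refine meas_le_lintegral₀ hcont.measurable.ennreal_ofReal.aemeasurable fun v hv => ?_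
          rw [← ENNReal.ofReal_one]
          refine ENNReal.ofReal_le_ofReal ?_
          have h1 : 1 ≤ |∑ k, y k * v k| := hv
          rw [← sq_abs]
          nlinarith
      _ = ENNReal.ofReal (∫ v in C, (∑ k, y k * v k) ^ 2) := by
          rw [ofReal_integral_eq_lintegral_ofReal]
          · exact hcont.integrableOn_Icc
          · exact Filter.Eventually.of_forall fun v => sq_nonneg _
      _ ≤ _ := ENNReal.ofReal_le_ofReal hint
  have h3 : ENNReal.ofReal (2 / 3 * (2 * a) ^ n) + ENNReal.ofReal ((2 * a) ^ n / 3) ≤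
      volume A + ENNReal.ofReal ((2 * a) ^ n / 3) := by
    calc ENNReal.ofReal (2 / 3 * (2 * a) ^ n) + ENNReal.ofReal ((2 * a) ^ n / 3)
        = volume C := by
          rw [hCv, ← ENNReal.ofReal_add (by positivity) (by positivity)]
          congr 1
          ring
      _ ≤ volume (A ∪ (B ∩ C)) := measure_mono hcov
      _ ≤ volume A + volume (B ∩ C) := measure_union_le _ _
      _ ≤ _ := by gcongr
  exact (ENNReal.add_le_add_iff_right ENNReal.ofReal_ne_top).1 h3

/-- volume of the set of arrays with columns in a given set -/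
lemma vol_cols (n m : ℕ) (A : Set (Fin n → ℝ)) (hA : MeasurableSet A) :
    volume {V : AR n m | ∀ i, (fun k => V (k, i)) ∈ A} = volume A ^ m := by
  let f : (Fin m → Fin n → ℝ) → AR n m := fun W p => W p.2 p.1
  have hf : Measurable f := by
    refine measurable_pi_lambda _ fun p => ?_
    exact (measurable_pi_apply p.1).comp (measurable_pi_apply p.2)
  have hmap : (volume : Measure (AR n m)) =
      (volume : Measure (Fin m → Fin n → ℝ)).map f := by
    rw [volume_pi]
    refine Measure.pi_eq fun s hs => ?_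
    rw [Measure.map_apply hf (MeasurableSet.univ_pi hs)]
    have : f ⁻¹' (univ.pi s) = univ.pi fun i : Fin m => univ.pi fun k : Fin n => s (k, i) := by
      ext W
      simp only [mem_preimage, mem_univ_pi, f, Prod.forall]
      exact forall_comm
    rw [this, volume_pi_pi]
    simp only [volume_pi_pi]
    rw [Fintype.prod_prod_type_right]
  have hm : MeasurableSet {V : AR n m | ∀ i, (fun k => V (k, i)) ∈ A} := by
    rw [ofPred_forall]
    refine MeasurableSet.iInter fun i => ?_
    exact (measurable_pi_lambda _ fun k => measurable_pi_apply (k, i)) hA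
  rw [hmap, Measure.map_apply hf hm]
  have : f ⁻¹' {V : AR n m | ∀ i, (fun k => V (k, i)) ∈ A} = univ.pi fun _ : Fin m => A := by
    ext W
    simp only [mem_preimage, mem_univ_pi, f, mem_ofPred_eq]
  rw [this, volume_pi_pi]
  simp

theorem result : S_PVV := by
  intro n m hn
  set S : Set (AR n m × (Fin n → ℝ)) := {q | q.2 ∈ PV q.1} with hSdef
  have hS : MeasurableSet S := by
    have : S = ⋂ i, {q | |∑ k, q.2 k * wv q.1 i k| ≤ 1} := by
      ext q
      simp only [hSdef, PV, mem_ofPred_eq, mem_iInter]
    rw [this]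
    refine (isClosed_iInter fun i => isClosed_le ?_ continuous_const).measurableSet
    cases i <;> simp only [wv] <;> fun_prop
  have h1 : ∫⁻ V in QQ n m (1 / Real.sqrt n), volume (PV V) =
      ((volume : Measure (AR n m)).restrict (QQ n m (1 / Real.sqrt n))).prod volume S := by
    rw [Measure.prod_apply hS]
    rfl
  rw [h1, Measure.prod_apply_symm hS]
  set K : Set (Fin n → ℝ) := Icc (fun _ => -1) (fun _ => 1) with hK
  have hKv : volume K = ENNReal.ofReal (2 ^ n) := by
    rw [hK, Real.volume_Icc_pi]
    simp only [Finset.prod_const, Finset.card_univ, Fintype.card_fin]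
    rw [ENNReal.ofReal_pow (by norm_num)]
    norm_num
  set c : ℝ≥0∞ := ENNReal.ofReal ((2 / 3 * (2 / Real.sqrt n) ^ n) ^ m) with hc
  have h2 : ∀ y ∈ K, c ≤ ((volume : Measure (AR n m)).restrict (QQ n m (1 / Real.sqrt n)))
      ((fun x => (x, y)) ⁻¹' S) := by
    intro y hy
    have hy1 : ∀ k, |y k| ≤ 1 := by
      intro k
      rw [hK, mem_Icc, Pi.le_def, Pi.le_def] at hy
      exact abs_le.2 ⟨hy.1 k, hy.2 k⟩
    set A : Set (Fin n → ℝ) := {v : Fin n → ℝ |
      (∀ k, |v k| ≤ 1 / Real.sqrt n) ∧ |∑ k, y k * v k| ≤ 1} with hA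
    have hAm : MeasurableSet A := by
      have : A = (⋂ k, {v | |v k| ≤ 1 / Real.sqrt n}) ∩ {v | |∑ k, y k * v k| ≤ 1} := by
        ext v
        simp only [hA, mem_ofPred_eq, mem_inter_iff, mem_iInter]
      rw [this]
      refine ((isClosed_iInter fun k => isClosed_le ?_ continuous_const).inter
        (isClosed_le ?_ continuous_const)).measurableSet
      · fun_prop
      · fun_prop
    calc c = ENNReal.ofReal (2 / 3 * (2 / Real.sqrt n) ^ n) ^ m := by
          rw [hc, ENNReal.ofReal_pow (by positivity)]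
      _ ≤ volume A ^ m := by
          gcongr
          exact slab n hn y hy1
      _ = volume {V : AR n m | ∀ i, (fun k => V (k, i)) ∈ A} := (vol_cols n m A hAm).symm
      _ ≤ volume (((fun x => (x, y)) ⁻¹' S) ∩ QQ n m (1 / Real.sqrt n)) := by
          refine measure_mono fun V hV => ⟨?_, ?_⟩
          · change ∀ i, |∑ k, y k * wv V i k| ≤ 1
            rintro (j | i)
            · simp only [wv]
              rw [Finset.sum_eq_single j]
              · rw [Pi.single_eq_same, mul_one]
                exact hy1 j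
              · intro k _ hk
                rw [Pi.single_eq_of_ne hk, mul_zero]
              · intro h
                exact absurd (Finset.mem_univ j) h
            · exact (hV i).2
          · intro p
            exact (hV p.2).1 p.1
      _ ≤ _ := Measure.le_restrict_apply _ _
  calc ENNReal.ofReal (2 ^ n * (2 / 3) ^ m * (2 / Real.sqrt n) ^ (n * m)) = c * volume K := by
        rw [hKv, hc, ← ENNReal.ofReal_mul (by positivity)]
        congr 1
        rw [mul_pow, ← pow_mul]
        ring
    _ = ∫⁻ _y in K, c := by rw [setLIntegral_const]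
    _ ≤ ∫⁻ y in K, ((volume : Measure (AR n m)).restrict (QQ n m (1 / Real.sqrt n)))
      ((fun x => (x, y)) ⁻¹' S) := setLIntegral_mono' measurableSet_Icc h2
    _ ≤ _ := setLIntegral_le_lintegral _ _

end Pool.Agent.W699.RA_PVV
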